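import Pool.Agent.Q149.FC.SA

/-!
# Project FC (helper188), job FC-B: bound for the cubic moment (helper149)
-/

set_option autoImplicit false

open MeasureTheory

namespace Pool.Agent.Q149.FC.B

open Pool.Agent.Q188.FC Pool.Agent.Q149.FC.GM Pool.Agent.Q149.FC.SA
open Pool.Agent.W716.FV (E gam gd UU)
open Pool.Agent.H241R3.FV (Sph act)

/-- linear algebra: `2 ‖X u‖² - ⟨X u, u⟩² ≤ hs X` -/
theorem hs_bound {n : ℕ} (X : Matrix (Fin n) (Fin n) ℝ) (hX : X.IsSymm) (u : Fin n → ℝ)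
    (hu : ∑ i, u i ^ 2 = 1) :
    2 * ∑ i, (∑ j, X i j * u j) ^ 2 - (∑ i, u i * ∑ j, X i j * u j) ^ 2 ≤ hs X := by
  set a : Fin n → ℝ := fun i => ∑ j, X i j * u j with ha
  set x : ℝ := ∑ i, u i * a i with hx
  have hcol : ∀ j, ∑ i, u i * X i j = a j := by
    intro j
    rw [ha]
    refine Finset.sum_congr rfl fun i _ => ?_
    rw [← hX.apply i j, mul_comm]
  have h1 : hs X = ∑ i, a i ^ 2 + ∑ i, ∑ j, (X i j - u i * a j) ^ 2 := by
    unfold hs
    have e : ∀ i j, X i j ^ 2 = (u i ^ 2 * a j ^ 2 + 2 * (a j * (u i * (X i j - u i * a j)))) +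
        (X i j - u i * a j) ^ 2 := fun i j => by ring
    simp only [e, Finset.sum_add_distrib]
    congr 1
    have e1 : ∑ i, ∑ j, u i ^ 2 * a j ^ 2 = ∑ i, a i ^ 2 := by
      rw [← Finset.sum_mul_sum, hu, one_mul]
    have e2 : ∑ i, ∑ j, 2 * (a j * (u i * (X i j - u i * a j))) = 0 := by
      rw [Finset.sum_comm]
      refine Finset.sum_eq_zero fun j _ => ?_
      have e3 : ∀ i, 2 * (a j * (u i * (X i j - u i * a j))) =
          2 * a j * (u i * X i j) - 2 * a j * a j * u i ^ 2 := fun i => by ring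
      simp only [e3, Finset.sum_sub_distrib]
      rw [← Finset.mul_sum, ← Finset.mul_sum, hcol, hu]
      ring
    rw [e1, e2, add_zero]
  have h2 : ∀ i, (a i - u i * x) ^ 2 ≤ ∑ j, (X i j - u i * a j) ^ 2 := by
    intro i
    have h3 := Finset.sum_mul_sq_le_sq_mul_sq Finset.univ (fun j => X i j - u i * a j) u
    rw [hu, mul_one] at h3
    have e : ∑ j, (X i j - u i * a j) * u j = a i - u i * x := by
      rw [hx, ha, Finset.mul_sum, ← Finset.sum_sub_distrib]
      refine Finset.sum_congr rfl fun j _ => ?_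
      ring
    rw [e] at h3
    exact h3
  have h3 : ∑ i, (a i - u i * x) ^ 2 = ∑ i, a i ^ 2 - x ^ 2 := by
    have e : ∀ i, (a i - u i * x) ^ 2 = a i ^ 2 - 2 * x * (u i * a i) + x ^ 2 * u i ^ 2 :=
      fun i => by ring
    simp only [e, Finset.sum_add_distrib, Finset.sum_sub_distrib]
    rw [← Finset.mul_sum, ← Finset.mul_sum, hu, ← hx]
    ring
  have h4 := Finset.sum_le_sum fun i (_ : i ∈ Finset.univ) => h2 i
  rw [h3] at h4
  linarith

/-- **job FC-B** -/
theorem main (h1 : PLBasic) (h2 : CcBasic) (h3 : CcMom) (h4 : SPOdd) : BIneq := by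
  intro n φ hφ hmv u hu ε
  have hprob := prob n
  obtain ⟨hpl, -, -, hodd, hfd, -, hmvu, -, -⟩ := h2 n φ hφ
  obtain ⟨-, hsymm, -, -⟩ := h3 n φ hφ
  set l : E n → ℝ := fun x => inner ℝ u x with hl
  have pll : PL l := pl_inner h1 u
  have plφ2 : PL (fun x => φ x * φ x) := pl_mul h1 hpl hpl
  have plφ3 : PL (fun x => φ x * (φ x * φ x)) := pl_mul h1 hpl plφ2
  have plφ4 : PL (fun x => (φ x * φ x) * (φ x * φ x)) := pl_mul h1 plφ2 plφ2
  have pll2 : PL (fun x => l x * (φ x * φ x)) := pl_mul h1 pll plφ2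
  have pll4 : PL (fun x => l x * ((φ x * φ x) * (φ x * φ x))) := pl_mul h1 pll plφ4
  have plh : PL (fun x => φ x + ε * (l x * (φ x * φ x))) := pl_add h1 hpl (pl_cmul h1 ε pll2)
  have hoddh : ∀ x, φ (-x) + ε * (l (-x) * (φ (-x) * φ (-x))) =
      -(φ x + ε * (l x * (φ x * φ x))) := by
    intro x
    rw [hl]
    simp only
    rw [hodd, inner_neg_right]
    ring
  have hSP := h4 n _ plh hoddh
  -- the gradient
  have hpt : ∀ᵐ x ∂(gam n), ‖fderiv ℝ (fun x => φ x + ε * (l x * (φ x * φ x))) x‖ ^ 2 ≤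
      ((1 + 2 * ε * (l x * φ x)) ^ 2 + 2 * ε / 3 * fderiv ℝ (fun x => φ x * (φ x * φ x)) x u) +
        ε ^ 2 * fderiv ℝ (fun x => l x * ((φ x * φ x) * (φ x * φ x))) x u := by
    filter_upwards [pl_ae h1 hpl] with x hx
    have dφ := hx.hasFDerivAt
    have dl : HasFDerivAt l (innerSL ℝ u) x := hd_inner u x
    have dφ2 := hd_mul dφ dφ
    have dh := hd_add dφ (hd_cmul ε (hd_mul dl dφ2))
    have e1 : fderiv ℝ (fun x => φ x + ε * (l x * (φ x * φ x))) x =
        (1 + 2 * ε * (l x * φ x)) • fderiv ℝ φ x + (ε * φ x ^ 2) • innerSL ℝ u := by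
      rw [dh.fderiv]
      ext y
      simp only [_root_.add_apply, _root_.smul_apply, smul_eq_mul]
      ring
    have e2 : fderiv ℝ (fun x => φ x * (φ x * φ x)) x u = 3 * φ x ^ 2 * fderiv ℝ φ x u := by
      rw [(hd_mul dφ dφ2).fderiv]
      simp only [_root_.add_apply, _root_.smul_apply, smul_eq_mul]
      ring
    have e3 : fderiv ℝ (fun x => l x * ((φ x * φ x) * (φ x * φ x))) x u =
        φ x ^ 4 + 4 * (l x * φ x ^ 3) * fderiv ℝ φ x u := by
      rw [(hd_mul dl (hd_mul dφ2 dφ2)).fderiv]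
      simp only [_root_.add_apply, _root_.smul_apply, smul_eq_mul, innerSL_apply_apply,
        real_inner_self_eq_norm_sq, hu]
      ring
    rw [e1, norm_comb, e2, e3, hu]
    have h6 : ‖fderiv ℝ φ x‖ ^ 2 ≤ 1 := pow_le_one₀ (norm_nonneg _) (hfd x)
    have h7 : (1 + 2 * ε * (l x * φ x)) ^ 2 * ‖fderiv ℝ φ x‖ ^ 2 ≤
        (1 + 2 * ε * (l x * φ x)) ^ 2 := mul_le_of_le_one_right (sq_nonneg _) h6
    nlinarith [h7]
  -- integration
  have pl5 : PL (fun x => 1 + 2 * ε * (l x * φ x)) :=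
    pl_add h1 (pl_const h1 1) (pl_cmul h1 _ (pl_mul h1 pll hpl))
  have i1 : Integrable (fun x => (1 + 2 * ε * (l x * φ x)) ^ 2) (gam n) := pl_int h1 (pl_sq h1 pl5)
  have i2 : Integrable (fun x => 2 * ε / 3 * fderiv ℝ (fun x => φ x * (φ x * φ x)) x u) (gam n) :=
    (fd_int h1 plφ3 u).const_mul _
  have i3 : Integrable (fun x => ε ^ 2 * fderiv ℝ (fun x => l x * ((φ x * φ x) * (φ x * φ x))) x u)
      (gam n) := (fd_int h1 pll4 u).const_mul _
  have hint := integral_mono_ae (fd_sq_int h1 plh) ((i1.add i2).add i3) hpt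
  set s := sv φ with hs'
  set b := bv φ u with hb
  set W := ∫ x, l x ^ 2 * φ x ^ 4 ∂(gam n) with hW
  set m2 := ∫ x, l x ^ 2 * φ x ^ 2 ∂(gam n) with hm2
  have hsφ : ∫ x, φ x ^ 2 ∂(gam n) = s := rfl
  have hb3 : ∫ x, l x * φ x ^ 3 ∂(gam n) = 3 * b := by
    rw [hb]
    unfold bv
    ring
  have hlφ : ∫ x, l x * φ x ∂(gam n) = 0 := by
    have h5 := hmvu u
    rw [hmv, inner_zero_left] at h5
    rw [h5]
    refine integral_congr_ae (Filter.Eventually.of_forall fun x => ?_)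
    simp only
    rw [mul_comm]
  have hl2 : ∫ x, l x ^ 2 ∂(gam n) = 1 := by
    have h5 := mom2 u u
    rw [real_inner_self_eq_norm_sq, hu, one_pow] at h5
    rw [← h5]
    refine integral_congr_ae (Filter.Eventually.of_forall fun x => ?_)
    simp only
    rw [pow_two]
  have q2 : PL (fun x => l x ^ 2 * φ x ^ 2) := pl_mul h1 (pl_sq h1 pll) (pl_sq h1 hpl)
  have q3 : PL (fun x => l x * φ x ^ 3) := by
    have e : (fun x => l x * φ x ^ 3) = fun x => l x * (φ x * (φ x * φ x)) := by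
      funext x; ring
    rw [e]
    exact pl_mul h1 pll plφ3
  have q4 : PL (fun x => l x ^ 2 * φ x ^ 4) := by
    have e : (fun x => l x ^ 2 * φ x ^ 4) = fun x => l x * (l x * ((φ x * φ x) * (φ x * φ x))) := by
      funext x; ring
    rw [e]
    exact pl_mul h1 pll pll4
  have hR : ∫ x, (((1 + 2 * ε * (l x * φ x)) ^ 2 +
        2 * ε / 3 * fderiv ℝ (fun x => φ x * (φ x * φ x)) x u) +
        ε ^ 2 * fderiv ℝ (fun x => l x * ((φ x * φ x) * (φ x * φ x))) x u) ∂(gam n) =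
      1 + 4 * ε ^ 2 * m2 + 2 * ε * b + ε ^ 2 * W := by
    have s1 := integral_add (i1.add i2) i3
    have s2 := integral_add i1 i2
    simp only [Pi.add_apply] at s1 s2
    rw [s1, s2, integral_const_mul, integral_const_mul, ← ibp h1 plφ3 u, ← ibp h1 pll4 u]
    have a1 : ∫ x, (1 + 2 * ε * (l x * φ x)) ^ 2 ∂(gam n) = 1 + 4 * ε ^ 2 * m2 := by
      have e : ∀ x, (1 + 2 * ε * (l x * φ x)) ^ 2 =
          (1 + 4 * ε * (l x * φ x)) + 4 * ε ^ 2 * (l x ^ 2 * φ x ^ 2) := fun x => by ring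
      simp only [e]
      rw [ex_add h1 (pl_add h1 (pl_const h1 1) (pl_cmul h1 _ (pl_mul h1 pll hpl)))
        (pl_cmul h1 _ q2), ex_add h1 (pl_const h1 1) (pl_cmul h1 _ (pl_mul h1 pll hpl)),
        integral_const_mul, integral_const_mul, hlφ, ← hm2, integral_const]
      simp
    have a2 : ∫ x, (inner ℝ u x : ℝ) * (φ x * (φ x * φ x)) ∂(gam n) = 3 * b := by
      rw [← hb3]
      refine integral_congr_ae (Filter.Eventually.of_forall fun x => ?_)
      simp only [hl]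
      ring
    have a3 : ∫ x, (inner ℝ u x : ℝ) * (l x * ((φ x * φ x) * (φ x * φ x))) ∂(gam n) = W := by
      rw [hW]
      refine integral_congr_ae (Filter.Eventually.of_forall fun x => ?_)
      simp only [hl]
      ring
    rw [a1, a2, a3]
    ring
  have hint' : ∫ x, ‖fderiv ℝ (fun x => φ x + ε * (l x * (φ x * φ x))) x‖ ^ 2 ∂(gam n) ≤
      1 + 4 * ε ^ 2 * m2 + 2 * ε * b + ε ^ 2 * W := by
    rw [← hR]
    exact hint
  have b1 : ∫ x, (φ x + ε * (l x * (φ x * φ x))) ^ 2 ∂(gam n) = s + 6 * ε * b + ε ^ 2 * W := by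
    have e : ∀ x, (φ x + ε * (l x * (φ x * φ x))) ^ 2 =
        (φ x ^ 2 + 2 * ε * (l x * φ x ^ 3)) + ε ^ 2 * (l x ^ 2 * φ x ^ 4) := fun x => by ring
    simp only [e]
    rw [ex_add h1 (pl_add h1 (pl_sq h1 hpl) (pl_cmul h1 _ q3)) (pl_cmul h1 _ q4),
      ex_add h1 (pl_sq h1 hpl) (pl_cmul h1 _ q3), integral_const_mul, integral_const_mul, hsφ, hb3]
    ring
  -- second moments against `φ²`
  set y : Fin n → ℝ := fun i => ∫ x : E n, x i * (l x * (φ x * φ x)) ∂(gam n) with hy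
  have b2 : ∀ i : Fin n, ∫ x : E n, x i * (φ x + ε * (l x * (φ x * φ x))) ∂(gam n) = ε * y i := by
    intro i
    have e : ∀ x : E n, x i * (φ x + ε * (l x * (φ x * φ x))) =
        x i * φ x + ε * (x i * (l x * (φ x * φ x))) := fun x => by ring
    have h5 : ∫ x : E n, x i * φ x ∂(gam n) = 0 := by
      rw [← vec_coord h1 hpl i]
      have h6 : (∫ z, φ z • z ∂(gam n)) = 0 := hmv
      rw [h6]
      rfl
    simp only [e]
    rw [ex_add h1 (pl_mul h1 (pl_coord h1 i) hpl)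
      (pl_cmul h1 _ (pl_mul h1 (pl_coord h1 i) pll2)), h5, integral_const_mul, zero_add]
  have hXij : ∀ i j : Fin n, ∫ x : E n, x i * (x j * (φ x * φ x)) ∂(gam n) =
      2 * Xm φ i j + (if i = j then 1 else 0) * s := by
    intro i j
    have e : ∀ x : E n, x i * (x j * (φ x * φ x)) =
        (x i * x j - if i = j then 1 else 0) * φ x ^ 2 + (if i = j then 1 else 0) * φ x ^ 2 :=
      fun x => by ring
    simp only [e]
    rw [ex_add h1 (pl_mul h1 (pl_sub h1 (pl_mul h1 (pl_coord h1 i) (pl_coord h1 j)) (pl_const h1 _))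
      (pl_sq h1 hpl)) (pl_cmul h1 _ (pl_sq h1 hpl)), integral_const_mul, hsφ]
    congr 1
    unfold Xm
    ring
  have hyi : ∀ i, y i = 2 * (∑ j, Xm φ i j * u j) + s * u i := by
    intro i
    have e : ∀ x : E n, x i * (l x * (φ x * φ x)) = ∑ j, u j * (x i * (x j * (φ x * φ x))) := by
      intro x
      rw [hl]
      simp only
      rw [GM.inner_sum, Finset.sum_mul, Finset.mul_sum]
      exact Finset.sum_congr rfl fun j _ => by ring
    rw [hy]
    simp only [e]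
    rw [integral_finsetSum _ fun j _ =>
      (pl_int h1 (pl_mul h1 (pl_coord h1 i) (pl_mul h1 (pl_coord h1 j) plφ2))).const_mul (u j)]
    simp only [integral_const_mul, hXij, mul_add, Finset.sum_add_distrib]
    congr 1
    · rw [Finset.mul_sum]
      exact Finset.sum_congr rfl fun j _ => by ring
    · rw [Finset.sum_eq_single i]
      · simp [mul_comm]
      · intro j _ hj
        simp [Ne.symm hj]
      · intro h
        exact absurd (Finset.mem_univ i) h
  have hu2 : ∑ i, u i ^ 2 = 1 := by rw [← norm_sq_sum, hu, one_pow]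
  set a : Fin n → ℝ := fun i => ∑ j, Xm φ i j * u j with ha
  set x₀ : ℝ := ∑ i, u i * a i with hx₀
  have hm2' : m2 = s + 2 * x₀ := by
    have e : ∀ x : E n, l x ^ 2 * φ x ^ 2 = ∑ i, u i * (x i * (l x * (φ x * φ x))) := by
      intro x
      have e5 : l x = ∑ i, u i * x i := GM.inner_sum u x
      have e6 : l x ^ 2 * φ x ^ 2 = (∑ i, u i * x i) * (l x * (φ x * φ x)) := by
        rw [← e5]; ring
      rw [e6, Finset.sum_mul]
      exact Finset.sum_congr rfl fun j _ => by ring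
    rw [hm2]
    simp only [e]
    rw [integral_finsetSum _ fun i _ =>
      (pl_int h1 (pl_mul h1 (pl_coord h1 i) pll2)).const_mul (u i)]
    have e7 : ∀ i, ∫ x : E n, u i * (x i * (l x * (φ x * φ x))) ∂(gam n) =
        2 * (u i * a i) + s * u i ^ 2 := by
      intro i
      have e8 : ∫ x : E n, x i * (l x * (φ x * φ x)) ∂(gam n) = y i := rfl
      rw [integral_const_mul, e8, hyi]
      ring
    simp only [e7, Finset.sum_add_distrib]
    rw [← Finset.mul_sum, ← Finset.mul_sum, hu2, ← hx₀]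
    ring
  have hy2 : ∑ i, y i ^ 2 = 4 * ∑ i, a i ^ 2 + 4 * s * x₀ + s ^ 2 := by
    have e : ∀ i, y i ^ 2 = 4 * a i ^ 2 + 4 * s * (u i * a i) + s ^ 2 * u i ^ 2 := by
      intro i
      rw [hyi]
      ring
    simp only [e, Finset.sum_add_distrib]
    rw [← Finset.mul_sum, ← Finset.mul_sum, ← Finset.mul_sum, hu2, ← hx₀]
    ring
  -- Cauchy-Schwarz
  have hCS : m2 ^ 2 ≤ W := by
    have h5 : 0 ≤ ∫ x, (l x * φ x ^ 2 - m2 * l x) ^ 2 ∂(gam n) :=
      integral_nonneg fun x => sq_nonneg _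
    have e : ∀ x, (l x * φ x ^ 2 - m2 * l x) ^ 2 =
        (l x ^ 2 * φ x ^ 4 - 2 * m2 * (l x ^ 2 * φ x ^ 2)) + m2 ^ 2 * l x ^ 2 := fun x => by ring
    simp only [e] at h5
    rw [ex_add h1 (pl_sub h1 q4 (pl_cmul h1 _ q2)) (pl_cmul h1 _ (pl_sq h1 pll)),
      ex_sub h1 q4 (pl_cmul h1 _ q2), integral_const_mul, integral_const_mul, hl2, ← hm2, ← hW] at h5
    nlinarith [h5]
  have hhs := hs_bound (Xm φ) hsymm (fun i => u i) hu2
  have hhs' : 2 * ∑ i, a i ^ 2 - x₀ ^ 2 ≤ hs (Xm φ) := hhs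
  have hCS2 : x₀ ^ 2 ≤ ∑ i, a i ^ 2 := by
    have h5 := Finset.sum_mul_sq_le_sq_mul_sq Finset.univ (fun i => u i) a
    rw [hu2, one_mul] at h5
    exact h5
  have hx₀hs : x₀ ≤ √(hs (Xm φ)) := Real.le_sqrt_of_sq_le (by linarith)
  rw [b1] at hSP
  simp only [b2] at hSP
  have e9 : ∑ i, (ε * y i) ^ 2 = ε ^ 2 * ∑ i, y i ^ 2 := by
    rw [Finset.mul_sum]
    exact Finset.sum_congr rfl fun i _ => by ring
  rw [e9, hy2] at hSP
  rw [hm2'] at hint' hCS
  have hε : 0 ≤ ε ^ 2 := sq_nonneg ε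
  have k1 := mul_le_mul_of_nonneg_left hCS hε
  have k2 := mul_le_mul_of_nonneg_left hhs' hε
  have k3 := mul_le_mul_of_nonneg_left hCS2 hε
  have k4 := mul_le_mul_of_nonneg_left hx₀hs hε
  have k5 : 0 ≤ ε ^ 2 * x₀ ^ 2 := by positivity
  nlinarith [hSP, hint', k1, k2, k3, k4, k5]

end Pool.Agent.Q149.FC.B
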