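import Pool.Agent.Q188.FC.StmG
import Pool.Agent.W933.FV.GM

/-!
# Project FC (helper188): tools for the Gaussian integration by parts (helper149)
-/

set_option autoImplicit false

open MeasureTheory

namespace Pool.Agent.Q149.FC

open Pool.Agent.Q188.FC
open Pool.Agent.W716.FV (E gam gd UU)
open Pool.Agent.H241R3.FV (Sph act)

section
variable {n : ℕ}

theorem prob (n : ℕ) : IsProbabilityMeasure (gam n) := (Pool.Agent.W933.FVGM.main n).1

theorem mom2 (u v : E n) : ∫ x, (inner ℝ u x : ℝ) * inner ℝ v x ∂(gam n) = inner ℝ u v := by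
  rw [← (Pool.Agent.W933.FVGM.main n).2.2.2.1 u v]
  refine integral_congr_ae (Filter.Eventually.of_forall fun x => ?_)
  simp only
  rw [real_inner_comm u x, real_inner_comm v x]

variable (hP : PLBasic)

include hP

theorem pl_cont {f : E n → ℝ} (h : PL f) : Continuous f := ((hP n).1 f h).1

theorem pl_int {f : E n → ℝ} (h : PL f) : Integrable f (gam n) :=
  (hP n).2.2.2.2.2.1 f ((hP n).1 f h).1 ((hP n).1 f h).2.1

theorem pl_ae {f : E n → ℝ} (h : PL f) : ∀ᵐ x ∂(gam n), DifferentiableAt ℝ f x :=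
  ((hP n).1 f h).2.2.1

theorem pl_add {f g : E n → ℝ} (hf : PL f) (hg : PL g) : PL (fun x => f x + g x) :=
  ((hP n).2.1 f g hf hg).1

theorem pl_sub {f g : E n → ℝ} (hf : PL f) (hg : PL g) : PL (fun x => f x - g x) :=
  ((hP n).2.1 f g hf hg).2.1

theorem pl_mul {f g : E n → ℝ} (hf : PL f) (hg : PL g) : PL (fun x => f x * g x) :=
  ((hP n).2.1 f g hf hg).2.2

theorem pl_const (c : ℝ) : PL (fun _ : E n => c) := (hP n).2.2.2.1 c

theorem pl_inner (u : E n) : PL (fun x : E n => (inner ℝ u x : ℝ)) := (hP n).2.2.2.2.1 u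

theorem pl_sq {f : E n → ℝ} (hf : PL f) : PL (fun x => f x ^ 2) := by
  have := pl_mul hP hf hf
  simpa only [pow_two] using this

theorem pl_sum {ι : Type} (s : Finset ι) (f : ι → E n → ℝ) (h : ∀ i ∈ s, PL (f i)) :
    PL (fun x => ∑ i ∈ s, f i x) := by
  classical
  induction s using Finset.induction_on with
  | empty =>
    simp only [Finset.sum_empty]
    exact pl_const hP 0
  | insert a s ha ih =>
    simp only [Finset.sum_insert ha]
    exact pl_add hP (h a (Finset.mem_insert_self a s))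
      (ih fun i hi => h i (Finset.mem_insert_of_mem hi))

theorem pl_coord (i : Fin n) : PL (fun x : E n => x i) := by
  have h := pl_inner hP (EuclideanSpace.single i (1 : ℝ))
  have e : (fun x : E n => (inner ℝ (EuclideanSpace.single i (1 : ℝ)) x : ℝ)) = fun x => x i := by
    funext x
    rw [EuclideanSpace.inner_single_left]
    simp
  rwa [e] at h

theorem ex_add {f g : E n → ℝ} (hf : PL f) (hg : PL g) :
    ∫ x, (f x + g x) ∂(gam n) = ∫ x, f x ∂(gam n) + ∫ x, g x ∂(gam n) :=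
  integral_add (pl_int hP hf) (pl_int hP hg)

theorem ex_sub {f g : E n → ℝ} (hf : PL f) (hg : PL g) :
    ∫ x, (f x - g x) ∂(gam n) = ∫ x, f x ∂(gam n) - ∫ x, g x ∂(gam n) :=
  integral_sub (pl_int hP hf) (pl_int hP hg)

theorem pl_cmul (c : ℝ) {f : E n → ℝ} (hf : PL f) : PL (fun x => c * f x) :=
  pl_mul hP (pl_const hP c) hf

/-- integration by parts -/
theorem ibp {f : E n → ℝ} (hf : PL f) (u : E n) :
    ∫ x, inner ℝ u x * f x ∂(gam n) = ∫ x, fderiv ℝ f x u ∂(gam n) := by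
  rw [← ((hP n).1 f hf).2.2.2.2.2.2 u]
  refine integral_congr_ae (Filter.Eventually.of_forall fun x => ?_)
  simp only
  rw [real_inner_comm x u, mul_comm]

theorem ibp_coord {f : E n → ℝ} (hf : PL f) (i : Fin n) :
    ∫ x : E n, x i * f x ∂(gam n) = ∫ x, fderiv ℝ f x (EuclideanSpace.single i 1) ∂(gam n) := by
  rw [← ibp hP hf]
  refine integral_congr_ae (Filter.Eventually.of_forall fun x => ?_)
  simp only
  rw [EuclideanSpace.inner_single_left]
  simp

/-- the directional derivatives are integrable -/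
theorem fd_int {f : E n → ℝ} (hf : PL f) (u : E n) :
    Integrable (fun x => fderiv ℝ f x u) (gam n) := by
  obtain ⟨-, -, -, -, h1, h2, -⟩ := (hP n).1 f hf
  refine (hP n).2.2.2.2.2.2 _ (h2.apply_continuousLinearMap u) ?_
  obtain ⟨C, m, hC, h⟩ := h1
  refine ⟨C * ‖u‖, m, by positivity, fun x => ?_⟩
  have h3 := (fderiv ℝ f x).le_opNorm u
  rw [Real.norm_eq_abs] at h3
  have h4 := h x
  rw [abs_of_nonneg (norm_nonneg _)] at h4
  calc |fderiv ℝ f x u| ≤ ‖fderiv ℝ f x‖ * ‖u‖ := h3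
    _ ≤ (C * (1 + ‖x‖) ^ m) * ‖u‖ := mul_le_mul_of_nonneg_right h4 (norm_nonneg _)
    _ = C * ‖u‖ * (1 + ‖x‖) ^ m := by ring

/-- the square of the norm of the derivative is integrable -/
theorem fd_sq_int {f : E n → ℝ} (hf : PL f) :
    Integrable (fun x => ‖fderiv ℝ f x‖ ^ 2) (gam n) := by
  obtain ⟨-, -, -, -, h1, h2, -⟩ := (hP n).1 f hf
  have h3 : PB (fun x => ‖fderiv ℝ f x‖ * ‖fderiv ℝ f x‖) := ((hP n).2.2.1 _ _ h1 h1).2
  have h4 : PB (fun x => ‖fderiv ℝ f x‖ ^ 2) := by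
    simpa only [pow_two] using h3
  exact (hP n).2.2.2.2.2.2 _ (h2.norm.pow_const 2) h4

end

/-- the derivative of a linear functional -/
theorem hd_inner {n : ℕ} (u x : E n) :
    HasFDerivAt (fun y : E n => (inner ℝ u y : ℝ)) (innerSL ℝ u) x := (innerSL ℝ u).hasFDerivAt

theorem hd_coord {n : ℕ} (i : Fin n) (x : E n) :
    HasFDerivAt (fun y : E n => y i) (EuclideanSpace.proj i : E n →L[ℝ] ℝ) x :=
  (EuclideanSpace.proj i : E n →L[ℝ] ℝ).hasFDerivAt

theorem hd_mul {n : ℕ} {f g : E n → ℝ} {f' g' : E n →L[ℝ] ℝ} {x : E n}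
    (hf : HasFDerivAt f f' x) (hg : HasFDerivAt g g' x) :
    HasFDerivAt (fun y => f y * g y) (f x • g' + g x • f') x := hf.mul hg

theorem hd_add {n : ℕ} {f g : E n → ℝ} {f' g' : E n →L[ℝ] ℝ} {x : E n}
    (hf : HasFDerivAt f f' x) (hg : HasFDerivAt g g' x) :
    HasFDerivAt (fun y => f y + g y) (f' + g') x := hf.add hg

theorem hd_cmul {n : ℕ} {f : E n → ℝ} {f' : E n →L[ℝ] ℝ} {x : E n} (c : ℝ)
    (hf : HasFDerivAt f f' x) : HasFDerivAt (fun y => c * f y) (c • f') x := hf.const_mul c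

/-- the square of the norm of a combination of functionals -/
theorem norm_comb {n : ℕ} (A : E n →L[ℝ] ℝ) (w : E n) (a b : ℝ) :
    ‖a • A + b • innerSL ℝ w‖ ^ 2 = a ^ 2 * ‖A‖ ^ 2 + 2 * a * b * A w + b ^ 2 * ‖w‖ ^ 2 := by
  set g : E n := (InnerProductSpace.toDual ℝ (E n)).symm A with hg
  have hA : A = InnerProductSpace.toDual ℝ (E n) g := by rw [hg, LinearIsometryEquiv.apply_symm_apply]
  have hgw : A w = inner ℝ g w := by rw [hA]; rfl
  have hnA : ‖A‖ = ‖g‖ := by rw [hA, LinearIsometryEquiv.norm_map]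
  have he : a • A + b • innerSL ℝ w = InnerProductSpace.toDual ℝ (E n) (a • g + b • w) := by
    rw [map_add, map_smulₛₗ, map_smulₛₗ, ← hA]
    rfl
  rw [he, LinearIsometryEquiv.norm_map, hgw, hnA, norm_add_sq_real, norm_smul, norm_smul,
    real_inner_smul_left, real_inner_smul_right, mul_pow, mul_pow, Real.norm_eq_abs,
    Real.norm_eq_abs, sq_abs, sq_abs]
  ring

end Pool.Agent.Q149.FC
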