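import Pool.Agent.Q149.FC.Bas

/-!
# Project FC (helper188), job FC-GM: Gaussian moments (helper149)
-/

set_option autoImplicit false

open MeasureTheory

namespace Pool.Agent.Q149.FC.GM

open Pool.Agent.Q188.FC
open Pool.Agent.W716.FV (E gam gd UU)
open Pool.Agent.H241R3.FV (Sph act)

section
variable {n : ℕ}

theorem inner_sum (x y : E n) : (inner ℝ x y : ℝ) = ∑ i, x i * y i := by
  rw [PiLp.inner_apply]
  refine Finset.sum_congr rfl fun i _ => ?_
  simp [mul_comm]

theorem act_apply (Q : Matrix (Fin n) (Fin n) ℝ) (x : E n) (i : Fin n) :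
    act Q x i = ∑ j, Q i j * x j := rfl

theorem act_symm {Q : Matrix (Fin n) (Fin n) ℝ} (hQ : Q.IsSymm) (x y : E n) :
    (inner ℝ (act Q x) y : ℝ) = inner ℝ (act Q y) x := by
  rw [inner_sum, inner_sum]
  simp only [act_apply, Finset.sum_mul]
  rw [Finset.sum_comm]
  refine Finset.sum_congr rfl fun i _ => Finset.sum_congr rfl fun j _ => ?_
  rw [← hQ.apply i j]
  ring

theorem act_single (Q : Matrix (Fin n) (Fin n) ℝ) (i j : Fin n) :
    (inner ℝ (act Q (EuclideanSpace.single i (1 : ℝ))) (EuclideanSpace.single j (1 : ℝ)) : ℝ) =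
      Q j i := by
  rw [EuclideanSpace.inner_single_right, act_apply]
  simp

/-- the derivative of `qp Q` -/
theorem hd_qp {Q : Matrix (Fin n) (Fin n) ℝ} (hQ : Q.IsSymm) (z : E n) :
    HasFDerivAt (qp Q) ((2 : ℝ) • innerSL ℝ (act Q z)) z := by
  have h : HasFDerivAt (fun z : E n => ∑ i, ∑ j, Q i j * (z i * z j - if i = j then 1 else 0))
      (∑ i, ∑ j, Q i j • (z i • (EuclideanSpace.proj j : E n →L[ℝ] ℝ) +
        z j • (EuclideanSpace.proj i : E n →L[ℝ] ℝ))) z :=
    HasFDerivAt.fun_sum fun i _ => HasFDerivAt.fun_sum fun j _ =>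
      ((((hd_coord i z).mul (hd_coord j z)).sub_const _).const_mul (Q i j))
  have e : (∑ i, ∑ j, Q i j • (z i • (EuclideanSpace.proj j : E n →L[ℝ] ℝ) +
        z j • (EuclideanSpace.proj i : E n →L[ℝ] ℝ))) = (2 : ℝ) • innerSL ℝ (act Q z) := by
    ext y
    rw [_root_.smul_apply, innerSL_apply_apply, inner_sum, _root_.sum_apply]
    have hpr : ∀ i : Fin n, (EuclideanSpace.proj i : E n →L[ℝ] ℝ) y = y i := fun i => rfl
    simp only [_root_.sum_apply, _root_.smul_apply,
      _root_.add_apply, hpr, smul_eq_mul, act_apply,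
      Finset.sum_mul, mul_add, Finset.sum_add_distrib]
    have e1 : ∑ i, ∑ j, Q i j * (z i * y j) = ∑ i, ∑ j, Q i j * z j * y i := by
      rw [Finset.sum_comm]
      refine Finset.sum_congr rfl fun i _ => Finset.sum_congr rfl fun j _ => ?_
      rw [← hQ.apply i j]
      ring
    have e2 : ∑ i, ∑ j, Q i j * (z j * y i) = ∑ i, ∑ j, Q i j * z j * y i :=
      Finset.sum_congr rfl fun i _ => Finset.sum_congr rfl fun j _ => by ring
    rw [e1, e2]
    ring
  rw [e] at h
  exact h

theorem fd_qp {Q : Matrix (Fin n) (Fin n) ℝ} (hQ : Q.IsSymm) (z u : E n) :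
    fderiv ℝ (qp Q) z u = 2 * inner ℝ (act Q z) u := by
  rw [(hd_qp hQ z).fderiv]
  rfl

theorem qp_neg (Q : Matrix (Fin n) (Fin n) ℝ) (z : E n) : qp Q (-z) = qp Q z := by
  unfold qp
  refine Finset.sum_congr rfl fun i _ => Finset.sum_congr rfl fun j _ => ?_
  simp

variable (hP : PLBasic)

include hP

theorem pl_qp (Q : Matrix (Fin n) (Fin n) ℝ) : PL (qp Q) := by
  have h : PL (fun z : E n => ∑ i, ∑ j, Q i j * (z i * z j - if i = j then 1 else 0)) :=
    pl_sum hP _ _ fun i _ => pl_sum hP _ _ fun j _ =>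
      pl_mul hP (pl_const hP _) (pl_sub hP (pl_mul hP (pl_coord hP i) (pl_coord hP j)) (pl_const hP _))
  exact h

/-- an integral against `qp Q` -/
theorem int_qp_mul (Q : Matrix (Fin n) (Fin n) ℝ) {f : E n → ℝ} (hf : PL f) :
    ∫ z, qp Q z * f z ∂(gam n) =
      ∑ i, ∑ j, Q i j * ∫ z, (z i * z j - if i = j then 1 else 0) * f z ∂(gam n) := by
  have hij : ∀ i j : Fin n, PL (fun z : E n => (z i * z j - if i = j then 1 else 0) * f z) :=
    fun i j => pl_mul hP (pl_sub hP (pl_mul hP (pl_coord hP i) (pl_coord hP j)) (pl_const hP _)) hf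
  have e : ∀ z : E n, qp Q z * f z =
      ∑ i, ∑ j, Q i j * ((z i * z j - if i = j then 1 else 0) * f z) := by
    intro z
    unfold qp
    rw [Finset.sum_mul]
    refine Finset.sum_congr rfl fun i _ => ?_
    rw [Finset.sum_mul]
    refine Finset.sum_congr rfl fun j _ => ?_
    ring
  simp only [e]
  have hint : ∀ i j : Fin n, Integrable
      (fun z : E n => Q i j * ((z i * z j - if i = j then 1 else 0) * f z)) (gam n) :=
    fun i j => (pl_int hP (hij i j)).const_mul _
  rw [integral_finsetSum _ fun i _ => integrable_finsetSum _ fun j _ => hint i j]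
  refine Finset.sum_congr rfl fun i _ => ?_
  rw [integral_finsetSum _ fun j _ => hint i j]
  refine Finset.sum_congr rfl fun j _ => ?_
  rw [integral_const_mul]

theorem mom_coord (i j : Fin n) :
    ∫ z : E n, (z i * z j - if i = j then 1 else 0) ∂(gam n) = 0 := by
  have := prob n
  have h1 := mom2 (EuclideanSpace.single i (1 : ℝ)) (EuclideanSpace.single j (1 : ℝ))
  have e : ∀ x : E n, (inner ℝ (EuclideanSpace.single i (1 : ℝ)) x : ℝ) *
      inner ℝ (EuclideanSpace.single j (1 : ℝ)) x = x i * x j := by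
    intro x
    rw [EuclideanSpace.inner_single_left, EuclideanSpace.inner_single_left]
    simp
  simp only [e] at h1
  rw [integral_sub (pl_int hP (pl_mul hP (pl_coord hP i) (pl_coord hP j)))
    (integrable_const _), h1, integral_const, EuclideanSpace.inner_single_left]
  by_cases hij : i = j
  · subst hij
    simp
  · simp [hij]

theorem int_qp (Q : Matrix (Fin n) (Fin n) ℝ) : ∫ z, qp Q z ∂(gam n) = 0 := by
  have h := int_qp_mul hP Q (pl_const hP (n := n) 1)
  simp only [mul_one, mom_coord hP, mul_zero, Finset.sum_const_zero] at h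
  exact h

theorem int_uvq {Q : Matrix (Fin n) (Fin n) ℝ} (hQ : Q.IsSymm) (u v : E n) :
    ∫ z, inner ℝ u z * inner ℝ v z * qp Q z ∂(gam n) = 2 * inner ℝ (act Q u) v := by
  have hf : PL (fun z : E n => (inner ℝ v z : ℝ) * qp Q z) := pl_mul hP (pl_inner hP v) (pl_qp hP Q)
  have h := ibp hP hf u
  have hd : ∀ z : E n, fderiv ℝ (fun z : E n => (inner ℝ v z : ℝ) * qp Q z) z u =
      2 * (inner ℝ v z * inner ℝ (act Q u) z) + inner ℝ v u * qp Q z := by
    intro z
    rw [(hd_mul (hd_inner v z) (hd_qp hQ z)).fderiv, _root_.add_apply,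
      _root_.smul_apply, _root_.smul_apply,
      _root_.smul_apply, innerSL_apply_apply, innerSL_apply_apply, act_symm hQ z u,
      smul_eq_mul, smul_eq_mul, smul_eq_mul]
    ring
  simp only [hd] at h
  rw [integral_add ((pl_int hP (pl_mul hP (pl_inner hP v) (pl_inner hP (act Q u)))).const_mul 2)
    ((pl_int hP (pl_qp hP Q)).const_mul _), integral_const_mul, integral_const_mul, int_qp hP, mom2,
    mul_zero, add_zero, real_inner_comm] at h
  rw [← h]
  refine integral_congr_ae (Filter.Eventually.of_forall fun x => ?_)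
  simp only
  ring

theorem int_q2 {Q : Matrix (Fin n) (Fin n) ℝ} (hQ : Q.IsSymm) :
    ∫ z, qp Q z ^ 2 ∂(gam n) = 2 * hs Q := by
  have h := int_qp_mul hP Q (pl_qp hP Q)
  have h1 : ∀ i j : Fin n, ∫ z : E n, (z i * z j - if i = j then 1 else 0) * qp Q z ∂(gam n) =
      2 * Q i j := by
    intro i j
    have h2 := int_uvq hP hQ (EuclideanSpace.single i (1 : ℝ)) (EuclideanSpace.single j (1 : ℝ))
    rw [act_single, hQ.apply i j] at h2
    have e : ∀ x : E n, (inner ℝ (EuclideanSpace.single i (1 : ℝ)) x : ℝ) *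
        inner ℝ (EuclideanSpace.single j (1 : ℝ)) x = x i * x j := by
      intro x
      rw [EuclideanSpace.inner_single_left, EuclideanSpace.inner_single_left]
      simp
    simp only [e] at h2
    rw [← h2]
    have e2 : ∀ z : E n, (z i * z j - if i = j then 1 else 0) * qp Q z =
        z i * z j * qp Q z - (if i = j then 1 else 0) * qp Q z := fun z => by ring
    simp only [e2]
    rw [integral_sub (pl_int hP (pl_mul hP (pl_mul hP (pl_coord hP i) (pl_coord hP j)) (pl_qp hP Q)))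
      ((pl_int hP (pl_qp hP Q)).const_mul _), integral_const_mul, int_qp hP, mul_zero, sub_zero]
  simp only [h1] at h
  have e : ∀ z : E n, qp Q z ^ 2 = qp Q z * qp Q z := fun z => pow_two _
  simp only [e]
  rw [h]
  unfold hs
  rw [Finset.mul_sum]
  refine Finset.sum_congr rfl fun i _ => ?_
  rw [Finset.mul_sum]
  refine Finset.sum_congr rfl fun j _ => ?_
  ring

theorem int_u2q2 {Q : Matrix (Fin n) (Fin n) ℝ} (hQ : Q.IsSymm) (u : E n) :
    ∫ z, inner ℝ u z ^ 2 * qp Q z ^ 2 ∂(gam n) = 2 * hs Q * ‖u‖ ^ 2 + 8 * ‖act Q u‖ ^ 2 := by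
  have hf : PL (fun z : E n => (inner ℝ u z : ℝ) * (qp Q z * qp Q z)) :=
    pl_mul hP (pl_inner hP u) (pl_mul hP (pl_qp hP Q) (pl_qp hP Q))
  have h := ibp hP hf u
  have hd : ∀ z : E n, fderiv ℝ (fun z : E n => (inner ℝ u z : ℝ) * (qp Q z * qp Q z)) z u =
      4 * (inner ℝ u z * inner ℝ (act Q u) z * qp Q z) + ‖u‖ ^ 2 * qp Q z ^ 2 := by
    intro z
    rw [(hd_mul (hd_inner u z) (hd_mul (hd_qp hQ z) (hd_qp hQ z))).fderiv]
    simp only [_root_.add_apply, _root_.smul_apply, innerSL_apply_apply,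
      act_symm hQ z u, smul_eq_mul, real_inner_self_eq_norm_sq]
    ring
  simp only [hd] at h
  rw [integral_add ((pl_int hP (pl_mul hP (pl_mul hP (pl_inner hP u) (pl_inner hP (act Q u)))
      (pl_qp hP Q))).const_mul 4) ((pl_int hP (pl_sq hP (pl_qp hP Q))).const_mul _),
    integral_const_mul, integral_const_mul, int_q2 hP hQ, int_uvq hP hQ, real_inner_self_eq_norm_sq] at h
  have e : ∀ z : E n, (inner ℝ u z : ℝ) ^ 2 * qp Q z ^ 2 = inner ℝ u z * (inner ℝ u z * (qp Q z * qp Q z)) :=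
    fun z => by ring
  simp only [e]
  rw [h]
  ring

theorem int_u2vw (u v w : E n) : ∫ z, inner ℝ u z ^ 2 * (inner ℝ v z * inner ℝ w z) ∂(gam n) =
      ‖u‖ ^ 2 * inner ℝ v w + 2 * (inner ℝ u v * inner ℝ u w) := by
  have hf : PL (fun z : E n => (inner ℝ u z : ℝ) * (inner ℝ v z * inner ℝ w z)) :=
    pl_mul hP (pl_inner hP u) (pl_mul hP (pl_inner hP v) (pl_inner hP w))
  have h := ibp hP hf u
  have hd : ∀ z : E n, fderiv ℝ (fun z : E n => (inner ℝ u z : ℝ) * (inner ℝ v z * inner ℝ w z)) z u =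
      (‖u‖ ^ 2 * (inner ℝ v z * inner ℝ w z) + inner ℝ w u * (inner ℝ u z * inner ℝ v z)) +
        inner ℝ v u * (inner ℝ u z * inner ℝ w z) := by
    intro z
    rw [(hd_mul (hd_inner u z) (hd_mul (hd_inner v z) (hd_inner w z))).fderiv]
    simp only [_root_.add_apply, _root_.smul_apply, innerSL_apply_apply,
      smul_eq_mul, real_inner_self_eq_norm_sq]
    ring
  simp only [hd] at h
  have i1 : ∀ a b : E n, ∀ c : ℝ, PL (fun z : E n => c * ((inner ℝ a z : ℝ) * inner ℝ b z)) :=
    fun a b c => pl_cmul hP c (pl_mul hP (pl_inner hP a) (pl_inner hP b))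
  rw [ex_add hP (pl_add hP (i1 v w _) (i1 u v _)) (i1 u w _), ex_add hP (i1 v w _) (i1 u v _),
    integral_const_mul, integral_const_mul, integral_const_mul, mom2, mom2, mom2] at h
  have e : ∀ z : E n, (inner ℝ u z : ℝ) ^ 2 * (inner ℝ v z * inner ℝ w z) =
      inner ℝ u z * (inner ℝ u z * (inner ℝ v z * inner ℝ w z)) := fun z => by ring
  simp only [e]
  rw [h, real_inner_comm u w, real_inner_comm u v]
  ring

end

/-- **job FC-GM** -/
theorem main (h1 : PLBasic) : GMom := by
  intro n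
  refine ⟨fun u v w => int_u2vw h1 u v w, fun Q hQ => ⟨pl_qp h1 Q, qp_neg Q, hd_qp hQ, int_qp h1 Q,
    int_q2 h1 hQ, fun u v => int_uvq h1 hQ u v, fun u => int_u2q2 h1 hQ u⟩⟩

end Pool.Agent.Q149.FC.GM
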