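import Pool.Agent.Q149.FC.GM

/-!
# Project FC (helper188), job FC-SA (helper149)
-/

set_option autoImplicit false

open MeasureTheory

namespace Pool.Agent.Q149.FC.SA

open Pool.Agent.Q188.FC Pool.Agent.Q149.FC.GM
open Pool.Agent.W716.FV (E gam gd UU)
open Pool.Agent.H241R3.FV (Sph act)

section
variable {n : ℕ}

theorem pl_norm : PL (fun z : E n => ‖z‖) :=
  ⟨1, 0, zero_le_one, fun x y => by
    rw [pow_zero, one_mul, one_mul]
    exact abs_norm_sub_norm_le x y⟩

theorem pl_abs {f : E n → ℝ} (hf : PL f) : PL (fun z : E n => |f z|) := by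
  obtain ⟨C, m, hC, h⟩ := hf
  exact ⟨C, m, hC, fun x y => (abs_abs_sub_abs_le (f x) (f y)).trans (h x y)⟩

theorem norm_sq_sum (x : E n) : ‖x‖ ^ 2 = ∑ i, x i ^ 2 := by
  rw [EuclideanSpace.norm_sq_eq]
  refine Finset.sum_congr rfl fun i _ => ?_
  rw [Real.norm_eq_abs, sq_abs]

/-- the value of a functional -/
theorem clm_sum (A : E n →L[ℝ] ℝ) (x : E n) :
    A x = ∑ i, x i * A (EuclideanSpace.single i 1) := by
  have h : x = ∑ i, x i • EuclideanSpace.single i (1 : ℝ) := by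
    ext j
    rw [WithLp.ofLp_sum, Finset.sum_apply]
    simp
  conv_lhs => rw [h]
  rw [map_sum]
  refine Finset.sum_congr rfl fun i _ => ?_
  rw [map_smul, smul_eq_mul]

/-- the derivative of a coordinate of `Q x` -/
theorem hd_act (Q : Matrix (Fin n) (Fin n) ℝ) (i : Fin n) (x : E n) :
    HasFDerivAt (fun y : E n => act Q y i) (∑ j, Q i j • (EuclideanSpace.proj j : E n →L[ℝ] ℝ)) x := by
  have h : HasFDerivAt (fun y : E n => ∑ j, Q i j * y j)
      (∑ j, Q i j • (EuclideanSpace.proj j : E n →L[ℝ] ℝ)) x :=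
    HasFDerivAt.fun_sum fun j _ => (hd_coord j x).const_mul (Q i j)
  exact h

theorem hd_act_single (Q : Matrix (Fin n) (Fin n) ℝ) (i : Fin n) :
    (∑ j, Q i j • (EuclideanSpace.proj j : E n →L[ℝ] ℝ)) (EuclideanSpace.single i 1) = Q i i := by
  rw [_root_.sum_apply, Finset.sum_eq_single i]
  · show Q i i * (EuclideanSpace.single i (1 : ℝ) : E n) i = Q i i
    simp
  · intro j _ hj
    show Q i j * (EuclideanSpace.single i (1 : ℝ) : E n) j = 0
    simp [hj]
  · intro h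
    exact absurd (Finset.mem_univ i) h

theorem inner_act_self (Q : Matrix (Fin n) (Fin n) ℝ) (x : E n) :
    ∑ i, x i * act Q x i = qp Q x + Q.trace := by
  unfold qp Matrix.trace
  have h : ∀ i : Fin n, ∑ j, Q i j * (x i * x j - if i = j then 1 else 0) =
      x i * act Q x i - Q i i := by
    intro i
    simp only [mul_sub, Finset.sum_sub_distrib]
    congr 1
    · rw [act_apply, Finset.mul_sum]
      exact Finset.sum_congr rfl fun j _ => by ring
    · rw [Finset.sum_eq_single i]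
      · simp
      · intro j _ hj
        simp [Ne.symm hj]
      · intro h
        exact absurd (Finset.mem_univ i) h
  rw [Finset.sum_congr rfl fun i _ => h i, Finset.sum_sub_distrib]
  simp [Matrix.diag]

variable (hP : PLBasic)

include hP

theorem pl_act (Q : Matrix (Fin n) (Fin n) ℝ) (i : Fin n) : PL (fun y : E n => act Q y i) := by
  have h : PL (fun y : E n => ∑ j, Q i j * y j) :=
    pl_sum hP _ _ fun j _ => pl_cmul hP (Q i j) (pl_coord hP j)
  exact h

/-- coordinates of a vector integral -/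
theorem vec_int {g : E n → ℝ} (hg : PL g) : Integrable (fun z : E n => g z • z) (gam n) := by
  have hmeas : AEStronglyMeasurable (fun z : E n => g z • z) (gam n) :=
    ((pl_cont hP hg).smul continuous_id).aestronglyMeasurable
  rw [← integrable_norm_iff hmeas]
  have h := pl_int hP (pl_mul hP (pl_abs hg) pl_norm)
  refine h.congr (Filter.Eventually.of_forall fun z => ?_)
  simp only
  rw [norm_smul, Real.norm_eq_abs]

theorem vec_coord {g : E n → ℝ} (hg : PL g) (i : Fin n) :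
    (∫ z, g z • z ∂(gam n)) i = ∫ z : E n, z i * g z ∂(gam n) := by
  have h := integral_inner (𝕜 := ℝ) (vec_int hP hg) (EuclideanSpace.single i (1 : ℝ))
  rw [EuclideanSpace.inner_single_left] at h
  simp only [map_one, one_mul] at h
  rw [← h]
  refine integral_congr_ae (Filter.Eventually.of_forall fun z => ?_)
  simp only
  rw [EuclideanSpace.inner_single_left]
  simp [mul_comm]

theorem vec_norm {g : E n → ℝ} (hg : PL g) :
    ‖∫ z, g z • z ∂(gam n)‖ ^ 2 = ∑ i, (∫ z : E n, z i * g z ∂(gam n)) ^ 2 := by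
  rw [norm_sq_sum]
  exact Finset.sum_congr rfl fun i _ => by rw [vec_coord hP hg i]

/-- the integral of `q φ²` -/
theorem int_qφ (Q : Matrix (Fin n) (Fin n) ℝ) {φ : E n → ℝ} (hφ : PL φ) :
    ∫ z, qp Q z * φ z ^ 2 ∂(gam n) = 2 * ∑ i, ∑ j, Q i j * Xm φ i j := by
  rw [int_qp_mul hP Q (pl_sq hP hφ), Finset.mul_sum]
  refine Finset.sum_congr rfl fun i _ => ?_
  rw [Finset.mul_sum]
  refine Finset.sum_congr rfl fun j _ => ?_
  unfold Xm
  ring

end

/-- **job FC-SA** -/
theorem main (h1 : PLBasic) (h2 : CcBasic) (_h3 : GMom) (h4 : SPOdd) : SXa := by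
  intro n φ hφ hmv Q hQ
  have hprob := prob n
  obtain ⟨hpl, -, -, hodd, hfd, -, -, -, -⟩ := h2 n φ hφ
  set q := qp Q with hq
  have plq : PL q := pl_qp h1 Q
  have pl1q : PL (fun x => 1 + q x) := pl_add h1 (pl_const h1 1) plq
  have plh : PL (fun x => (1 + q x) * φ x) := pl_mul h1 pl1q hpl
  have plφ2 : PL (fun x => φ x * φ x) := pl_mul h1 hpl hpl
  set hh : Fin n → E n → ℝ := fun i x => (1 + q x) * (act Q x i * (φ x * φ x)) with hhh
  have plhh : ∀ i, PL (hh i) := fun i => pl_mul h1 pl1q (pl_mul h1 (pl_act h1 Q i) plφ2)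
  have hoddh : ∀ x, (1 + q (-x)) * φ (-x) = -((1 + q x) * φ x) := by
    intro x
    rw [hq, qp_neg, hodd]
    ring
  have hSP := h4 n _ plh hoddh
  -- the gradient
  have hpt : ∀ᵐ x ∂(gam n), ‖fderiv ℝ (fun x => (1 + q x) * φ x) x‖ ^ 2 ≤
      (1 + q x) ^ 2 + 2 * (∑ i, fderiv ℝ (hh i) x (EuclideanSpace.single i 1)) -
        2 * Q.trace * ((1 + q x) * φ x ^ 2) := by
    filter_upwards [pl_ae h1 hpl] with x hx
    have dφ := hx.hasFDerivAt
    have dq : HasFDerivAt q ((2 : ℝ) • innerSL ℝ (act Q x)) x := hd_qp hQ x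
    have d1q : HasFDerivAt (fun x => 1 + q x) ((2 : ℝ) • innerSL ℝ (act Q x)) x := dq.const_add 1
    have dh := hd_mul d1q dφ
    have e1 : fderiv ℝ (fun x => (1 + q x) * φ x) x =
        (1 + q x) • fderiv ℝ φ x + (2 * φ x) • innerSL ℝ (act Q x) := by
      rw [dh.fderiv, smul_smul, mul_comm (φ x) 2]
    have e2 : ∀ i, fderiv ℝ (hh i) x (EuclideanSpace.single i 1) =
        2 * ((1 + q x) * φ x) * (act Q x i * fderiv ℝ φ x (EuclideanSpace.single i 1)) +
          (1 + q x) * φ x ^ 2 * Q i i + 2 * φ x ^ 2 * act Q x i ^ 2 := by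
      intro i
      have d := hd_mul d1q (hd_mul (hd_act Q i x) (hd_mul dφ dφ))
      have hin : (inner ℝ (act Q x) (EuclideanSpace.single i (1 : ℝ)) : ℝ) = act Q x i := by
        rw [EuclideanSpace.inner_single_right]
        simp
      rw [hhh]
      simp only
      rw [d.fderiv]
      simp only [_root_.add_apply, _root_.smul_apply, innerSL_apply_apply, hd_act_single, hin,
        smul_eq_mul]
      ring
    have e3 : ∑ i, fderiv ℝ (hh i) x (EuclideanSpace.single i 1) =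
        2 * ((1 + q x) * φ x) * fderiv ℝ φ x (act Q x) + (1 + q x) * φ x ^ 2 * Q.trace +
          2 * φ x ^ 2 * ‖act Q x‖ ^ 2 := by
      rw [Finset.sum_congr rfl fun i _ => e2 i, Finset.sum_add_distrib, Finset.sum_add_distrib,
        ← Finset.mul_sum, ← Finset.mul_sum, ← Finset.mul_sum, ← clm_sum, ← norm_sq_sum]
      rfl
    rw [e1, norm_comb, e3]
    have h5 := hfd x
    have h6 : ‖fderiv ℝ φ x‖ ^ 2 ≤ 1 := pow_le_one₀ (norm_nonneg _) h5
    have h7 : (1 + q x) ^ 2 * ‖fderiv ℝ φ x‖ ^ 2 ≤ (1 + q x) ^ 2 :=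
      mul_le_of_le_one_right (sq_nonneg _) h6
    nlinarith [h7]
  -- integration
  have iD : ∀ i, Integrable (fun x => fderiv ℝ (hh i) x (EuclideanSpace.single i 1)) (gam n) :=
    fun i => fd_int h1 (plhh i) _
  have i1 : Integrable (fun x => (1 + q x) ^ 2) (gam n) := pl_int h1 (pl_sq h1 pl1q)
  have i2 : Integrable (fun x => 2 * (∑ i, fderiv ℝ (hh i) x (EuclideanSpace.single i 1))) (gam n) :=
    (integrable_finsetSum _ fun i _ => iD i).const_mul 2
  have pl3 : PL (fun x => (1 + q x) * φ x ^ 2) := pl_mul h1 pl1q (pl_sq h1 hpl)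
  have i3 : Integrable (fun x => 2 * Q.trace * ((1 + q x) * φ x ^ 2)) (gam n) :=
    (pl_int h1 pl3).const_mul _
  have hint := integral_mono_ae (fd_sq_int h1 plh) ((i1.add i2).sub i3) hpt
  have hR : ∫ x, ((1 + q x) ^ 2 + 2 * (∑ i, fderiv ℝ (hh i) x (EuclideanSpace.single i 1)) -
        2 * Q.trace * ((1 + q x) * φ x ^ 2)) ∂(gam n) =
      ∫ x, (1 + q x) ^ 2 ∂(gam n) + 2 * (∑ i, ∫ x : E n, x i * hh i x ∂(gam n)) -
        2 * Q.trace * ∫ x, (1 + q x) * φ x ^ 2 ∂(gam n) := by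
    have s1 := integral_sub (i1.add i2) i3
    have s2 := integral_add i1 i2
    simp only [Pi.add_apply] at s1 s2
    rw [s1, s2, integral_const_mul, integral_const_mul, integral_finsetSum _ fun i _ => iD i]
    congr 3
    refine Finset.sum_congr rfl fun i _ => ?_
    rw [ibp_coord h1 (plhh i)]
  -- the sum of the integrals by parts
  have hsum : ∑ i, ∫ x : E n, x i * hh i x ∂(gam n) =
      ∫ x, (1 + q x) * (q x + Q.trace) * φ x ^ 2 ∂(gam n) := by
    rw [← integral_finsetSum _ fun i _ => pl_int h1 (pl_mul h1 (pl_coord h1 i) (plhh i))]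
    refine integral_congr_ae (Filter.Eventually.of_forall fun x => ?_)
    simp only
    rw [hq, ← inner_act_self Q x, Finset.mul_sum, Finset.sum_mul]
    refine Finset.sum_congr rfl fun i _ => ?_
    rw [hhh]
    simp only
    rw [hq]
    ring
  -- the basic integrals
  have p1 : PL (fun x => q x * φ x ^ 2) := pl_mul h1 plq (pl_sq h1 hpl)
  have p2 : PL (fun x => (q x * φ x) ^ 2) := pl_sq h1 (pl_mul h1 plq hpl)
  have pφ : PL (fun x => φ x ^ 2) := pl_sq h1 hpl
  set s := sv φ with hs'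
  set t1 := ∫ x, q x * φ x ^ 2 ∂(gam n) with ht1
  set t2 := ∫ x, (q x * φ x) ^ 2 ∂(gam n) with ht2
  have hsφ : ∫ x, φ x ^ 2 ∂(gam n) = s := rfl
  have b1 : ∫ x, (1 + q x) ^ 2 ∂(gam n) = 1 + 2 * hs Q := by
    have e : ∀ x, (1 + q x) ^ 2 = (1 + 2 * q x) + q x ^ 2 := fun x => by ring
    simp only [e]
    rw [ex_add h1 (pl_add h1 (pl_const h1 1) (pl_cmul h1 2 plq)) (pl_sq h1 plq),
      ex_add h1 (pl_const h1 1) (pl_cmul h1 2 plq), integral_const_mul, hq, int_qp h1 Q,
      int_q2 h1 hQ, integral_const]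
    simp
  have b2 : ∫ x, (1 + q x) * φ x ^ 2 ∂(gam n) = s + t1 := by
    have e : ∀ x, (1 + q x) * φ x ^ 2 = φ x ^ 2 + q x * φ x ^ 2 := fun x => by ring
    simp only [e]
    rw [ex_add h1 pφ p1, hsφ]
  have b3 : ∫ x, (1 + q x) * (q x + Q.trace) * φ x ^ 2 ∂(gam n) =
      (1 + Q.trace) * t1 + Q.trace * s + t2 := by
    have e : ∀ x, (1 + q x) * (q x + Q.trace) * φ x ^ 2 =
        ((1 + Q.trace) * (q x * φ x ^ 2) + Q.trace * φ x ^ 2) + (q x * φ x) ^ 2 := fun x => by ring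
    simp only [e]
    rw [ex_add h1 (pl_add h1 (pl_cmul h1 _ p1) (pl_cmul h1 _ pφ)) p2,
      ex_add h1 (pl_cmul h1 _ p1) (pl_cmul h1 _ pφ), integral_const_mul, integral_const_mul, hsφ]
  have b4 : ∫ x, ((1 + q x) * φ x) ^ 2 ∂(gam n) = s + 2 * t1 + t2 := by
    have e : ∀ x, ((1 + q x) * φ x) ^ 2 = (φ x ^ 2 + 2 * (q x * φ x ^ 2)) + (q x * φ x) ^ 2 :=
      fun x => by ring
    simp only [e]
    rw [ex_add h1 (pl_add h1 pφ (pl_cmul h1 _ p1)) p2, ex_add h1 pφ (pl_cmul h1 _ p1),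
      integral_const_mul, hsφ]
  have b5 : ∀ i : Fin n, ∫ x : E n, x i * ((1 + q x) * φ x) ∂(gam n) =
      ∫ x : E n, x i * (q x * φ x) ∂(gam n) := by
    intro i
    have e : ∀ x : E n, x i * ((1 + q x) * φ x) = x i * φ x + x i * (q x * φ x) :=
      fun x => by ring
    have h5 : ∫ x : E n, x i * φ x ∂(gam n) = 0 := by
      rw [← vec_coord h1 hpl i]
      have h6 : (∫ z, φ z • z ∂(gam n)) = 0 := hmv
      rw [h6]
      rfl
    simp only [e]
    rw [ex_add h1 (pl_mul h1 (pl_coord h1 i) hpl) (pl_mul h1 (pl_coord h1 i) (pl_mul h1 plq hpl)), h5,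
      zero_add]
  have b6 : t1 = 2 * ∑ i, ∑ j, Q i j * Xm φ i j := int_qφ h1 Q hpl
  have b7 : ‖∫ z, (q z * φ z) • z ∂(gam n)‖ ^ 2 =
      ∑ i, (∫ x : E n, x i * (q x * φ x) ∂(gam n)) ^ 2 := vec_norm h1 (pl_mul h1 plq hpl)
  have hint' : ∫ x, ‖fderiv ℝ (fun x => (1 + q x) * φ x) x‖ ^ 2 ∂(gam n) ≤
      (1 + 2 * hs Q) + 2 * ((1 + Q.trace) * t1 + Q.trace * s + t2) - 2 * Q.trace * (s + t1) := by
    rw [← b1, ← b2, ← b3, ← hsum, ← hR]
    exact hint
  rw [b4] at hSP
  simp only [b5] at hSP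
  rw [b7]
  nlinarith [hSP, hint', b6]

end Pool.Agent.Q149.FC.SA
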